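import Pool.Agent.H24.Tri.ToolA
import Pool.Agent.H24.Tri.ToolB
import Pool.Agent.H24.Tri.DefsLoc

/-! Project TRI, module SL-FAR: commutator of a frequency projection with multiplication by `w`
(section 7 of the paper proof). -/

set_option autoImplicit false

open MeasureTheory Set Complex Metric Filter Topology
open scoped Real ENNReal NNReal FourierTransform ComplexConjugate

namespace Pool.Agent.H24.Tri

theorem far_nice (t : ℂ → ℂ) (ht : Nice t) {s : ℝ} (hs : 0 < s) (n : ℂ) :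
    Nice (fun ξ : ℂ => t (ξ / s - n)) := by
  constructor
  · apply ht.smooth.comp (f := fun ξ : ℂ => ξ / s - n)
    exact (contDiff_id.div_const _).sub contDiff_const
  · have hs' : (s : ℂ) ≠ 0 := by exact_mod_cast hs.ne'
    apply HasCompactSupport.intro (K := (fun u : ℂ => (s : ℂ) * (u + n)) '' tsupport t)
    · exact ht.compact.isCompact.image (by fun_prop)
    · intro ξ hξ
      by_contra h
      apply hξ
      refine ⟨ξ / s - n, subset_tsupport _ h, ?_⟩
      simp only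
      field_simp
      ring

theorem far_integral_le {α : Type*} [MeasurableSpace α] (μ : Measure α) (g : α → ℝ) (c : ℝ) (hc : 0 ≤ c)
    (h : ∫⁻ x, ENNReal.ofReal (g x) ∂μ ≤ ENNReal.ofReal c) (hg : ∀ x, 0 ≤ g x) : ∫ x, g x ∂μ ≤ c := by
  by_cases hi : Integrable g μ
  · have := ofReal_integral_eq_lintegral_ofReal hi (Eventually.of_forall hg)
    rw [← this] at h
    exact (ENNReal.ofReal_le_ofReal_iff hc).1 h
  · rw [integral_undef hi]; exact hc

theorem far_cs {α : Type*} [MeasurableSpace α] (μ : Measure α) (g : α → ℝ≥0∞) (hg : AEMeasurable g μ) :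
    (∫⁻ x, g x ∂μ) ^ 2 ≤ μ univ * ∫⁻ x, g x ^ 2 ∂μ := by
  have h := ENNReal.lintegral_mul_le_Lp_mul_Lq μ Real.HolderConjugate.two_two
    (f := fun _ => (1 : ℝ≥0∞)) (g := g) aemeasurable_const hg
  simp only [Pi.mul_apply, one_mul, ENNReal.one_rpow, lintegral_const] at h
  have h2 := pow_le_pow_left' h 2
  refine h2.trans (le_of_eq ?_)
  rw [mul_pow]
  have e : ∀ a : ℝ≥0∞, (a ^ (1 / 2 : ℝ)) ^ 2 = a := by
    intro a
    rw [← ENNReal.rpow_natCast, ← ENNReal.rpow_mul]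
    norm_num
  rw [e, e]
  simp

/-- first moment of a rescaled kernel -/
theorem far_moment (t : ℂ → ℂ) (ht : Nice t) {C : ℝ}
    (hint : Integrable fun y => ‖y‖ * ‖𝓕⁻ t y‖) (hC : (∫ y, ‖y‖ * ‖𝓕⁻ t y‖) ≤ C) {s : ℝ} (hs : 0 < s) (n : ℂ) :
    ∫⁻ y, ‖𝓕⁻ (fun ξ => t (ξ / s - n)) y‖ₑ * ‖y‖ₑ ≤ ENNReal.ofReal (C / s) := by
  have hs' : (s : ℂ) ≠ 0 := by exact_mod_cast hs.ne'
  have e1 : ∀ y : ℂ, ‖𝓕⁻ (fun ξ => t (ξ / s - n)) y‖ₑ * ‖y‖ₑ
      = ENNReal.ofReal (s * (‖s • y‖ * ‖𝓕⁻ t (s • y)‖)) := by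
    intro y
    rw [kernel_scaled t ht (s : ℂ) hs' n y, ← ofReal_norm, ← ofReal_norm,
      ← ENNReal.ofReal_mul (norm_nonneg _)]
    congr 1
    rw [norm_mul, norm_mul, Complex.norm_exp_ofReal_mul_I, Complex.norm_real, Complex.norm_real, Complex.conj_ofReal]
    rw [Complex.real_smul, norm_mul, Complex.norm_real]
    simp only [norm_pow, Real.norm_eq_abs, abs_of_pos hs]
    ring
  simp only [e1]
  have hint2 : Integrable (fun y : ℂ => s * (‖s • y‖ * ‖𝓕⁻ t (s • y)‖)) :=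
    (hint.comp_smul hs.ne').const_mul s
  rw [← ofReal_integral_eq_lintegral_ofReal hint2 (Eventually.of_forall fun y => by positivity)]
  apply ENNReal.ofReal_le_ofReal
  rw [integral_const_mul]
  have := Measure.integral_comp_smul (volume : Measure ℂ) (fun y : ℂ => ‖y‖ * ‖𝓕⁻ t y‖) s
  rw [this, Complex.finrank_real_complex, smul_eq_mul, abs_of_pos (by positivity)]
  rw [← mul_assoc]
  have e2 : s * (s ^ 2)⁻¹ = 1 / s := by field_simp
  rw [e2, one_div, div_eq_inv_mul]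
  exact mul_le_mul_of_nonneg_left hC (by positivity)

theorem far_ftc (w : ℂ → ℝ) (hw : ContDiff ℝ 1 w) (x y : ℂ) :
    ‖w (x - y) - w x‖ₑ ≤ ‖y‖ₑ * ∫⁻ τ in Ioc (0 : ℝ) 1, ‖fderiv ℝ w (x - τ • y)‖ₑ := by
  have hd : ∀ τ : ℝ, HasDerivAt (fun τ : ℝ => w (x - τ • y)) ((fderiv ℝ w (x - τ • y)) (-y)) τ := by
    intro τ
    have h1 : HasFDerivAt w (fderiv ℝ w (x - τ • y)) (x - τ • y) :=
      (hw.differentiable one_ne_zero (x - τ • y)).hasFDerivAt
    have h2 : HasDerivAt (fun τ : ℝ => x - τ • y) (-y) τ := by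
      have := ((hasDerivAt_id τ).smul_const y).const_sub x
      simpa using this
    exact h1.comp_hasDerivAt τ h2
  have hcont : Continuous (fun τ : ℝ => (fderiv ℝ w (x - τ • y)) (-y)) := by
    have h1 : Continuous (fderiv ℝ w) := hw.continuous_fderiv one_ne_zero
    have h2 : Continuous (fun τ : ℝ => x - τ • y) := by fun_prop
    exact (h1.comp h2).clm_apply continuous_const
  have h := intervalIntegral.integral_eq_sub_of_hasDerivAt (a := 0) (b := 1) (fun τ _ => hd τ)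
    (hcont.intervalIntegrable 0 1)
  simp only [one_smul, zero_smul, sub_zero] at h
  rw [← h, intervalIntegral.integral_of_le zero_le_one]
  refine (enorm_integral_le_lintegral_enorm _).trans ?_
  rw [← lintegral_const_mul' _ _ enorm_ne_top]
  apply lintegral_mono
  intro τ
  have := ContinuousLinearMap.le_opNorm (fderiv ℝ w (x - τ • y)) (-y)
  rw [norm_neg] at this
  simp only
  rw [← ofReal_norm, ← ofReal_norm, ← ofReal_norm, ← ENNReal.ofReal_mul (norm_nonneg _)]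
  apply ENNReal.ofReal_le_ofReal
  rw [mul_comm]
  exact this

theorem far_sq_integrable (w : ℂ → ℝ) (hw : ContDiff ℝ 1 w) (hwc : HasCompactSupport w) :
    Integrable (fun x => ‖fderiv ℝ w x‖ ^ 2) := by
  have hDc : Continuous (fderiv ℝ w) := hw.continuous_fderiv one_ne_zero
  have hDs : HasCompactSupport (fderiv ℝ w) := hwc.fderiv ℝ
  have h1 : Continuous (fun x => ‖fderiv ℝ w x‖ ^ 2) := hDc.norm.pow 2
  have h2 : HasCompactSupport (fun x => ‖fderiv ℝ w x‖ ^ 2) := by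
    apply HasCompactSupport.intro (K := tsupport (fderiv ℝ w)) hDs
    intro x hx
    rw [image_eq_zero_of_notMem_tsupport hx, norm_zero]
    norm_num
  exact h1.integrable_of_hasCompactSupport h2

theorem comm (t : ℂ → ℂ) (ht : Nice t) : ∃ C : ℝ, 0 < C ∧ ∀ s : ℝ, 0 < s → ∀ (n : ℂ) (p : ℂ → ℂ),
    Measurable p → ∀ B : ℝ, (∀ x, ‖p x‖ ≤ B) →
    ∀ w : ℂ → ℝ, ContDiff ℝ 1 w → HasCompactSupport w →
      (∫ x, ‖(∫ y, 𝓕⁻ (fun ξ => t (ξ / s - n)) y * ((w (x - y) : ℂ) * p (x - y))) -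
        (w x : ℂ) * ∫ y, 𝓕⁻ (fun ξ => t (ξ / s - n)) y * p (x - y)‖) ≤
        C * B / s * ∫ x, ‖fderiv ℝ w x‖ ∧
      (∫ x, ‖(∫ y, 𝓕⁻ (fun ξ => t (ξ / s - n)) y * ((w (x - y) : ℂ) * p (x - y))) -
        (w x : ℂ) * ∫ y, 𝓕⁻ (fun ξ => t (ξ / s - n)) y * p (x - y)‖ ^ 2) ≤
        (C * B / s) ^ 2 * ∫ x, ‖fderiv ℝ w x‖ ^ 2 := by
  obtain ⟨C, hC0, _, hC2, hC3, _⟩ := kernel_bounds t ht
  refine ⟨C + 1, by linarith, ?_⟩
  intro s hs n p hp B hB w hw hwc
  have hB0 : 0 ≤ B := (norm_nonneg _).trans (hB 0)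
  set K : ℂ → ℂ := 𝓕⁻ (fun ξ : ℂ => t (ξ / s - n)) with hK
  have hnK := far_nice t ht hs n
  have hKint : Integrable K := (nice_integrable _ hnK).2
  have hKc : Continuous K := nice_continuous _ hnK
  have hmom : ∫⁻ y, ‖K y‖ₑ * ‖y‖ₑ ≤ ENNReal.ofReal ((C + 1) / s) :=
    (far_moment t ht hC2 hC3 hs n).trans (ENNReal.ofReal_le_ofReal (by
      apply div_le_div_of_nonneg_right _ hs.le; linarith))
  have hDc : Continuous (fderiv ℝ w) := hw.continuous_fderiv one_ne_zero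
  have hDs : HasCompactSupport (fderiv ℝ w) := hwc.fderiv ℝ
  have hwcont : Continuous w := hw.continuous
  have hD2 := far_sq_integrable w hw hwc
  obtain ⟨W0, hW0⟩ := hwc.exists_bound_of_continuous hwcont
  -- the measure
  set κ : ℂ → ℝ≥0∞ := fun y => ‖K y‖ₑ * ‖y‖ₑ with hκ
  have hκm : Measurable κ := hKc.measurable.enorm.mul measurable_enorm
  set ν : Measure ℝ := volume.restrict (Ioc (0 : ℝ) 1) with hν
  set μ : Measure (ℂ × ℝ) := ((volume : Measure ℂ).withDensity κ).prod ν with hμ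
  set W : ℂ → ℝ≥0∞ := fun x => ‖fderiv ℝ w x‖ₑ with hW
  have hWm : Measurable W := hDc.measurable.enorm
  have hjoint : Measurable (fun q : ℂ × (ℂ × ℝ) => W (q.1 - q.2.2 • q.2.1)) :=
    hWm.comp (by fun_prop)
  have hq : ∀ x : ℂ, Measurable (fun q : ℂ × ℝ => W (x - q.2 • q.1)) := fun x => hWm.comp (by fun_prop)
  have hμ1 : μ univ ≤ ENNReal.ofReal ((C + 1) / s) := by
    rw [hμ, ← univ_prod_univ, Measure.prod_prod, withDensity_apply _ MeasurableSet.univ, Measure.restrict_univ,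
      hν, Measure.restrict_apply_univ, Real.volume_Ioc]
    simpa using hmom
  -- pointwise bound
  set F : ℂ → ℂ := fun x => (∫ y, K y * ((w (x - y) : ℂ) * p (x - y))) - (w x : ℂ) * ∫ y, K y * p (x - y) with hF
  have hpt : ∀ x, ‖F x‖ₑ ≤ ENNReal.ofReal B * ∫⁻ q, W (x - q.2 • q.1) ∂μ := by
    intro x
    have hpm : Measurable (fun y : ℂ => p (x - y)) := hp.comp (measurable_const.sub measurable_id)
    have hwm : Measurable (fun y : ℂ => ((w (x - y) : ℝ) : ℂ)) :=
      Complex.measurable_ofReal.comp (hwcont.measurable.comp (measurable_const.sub measurable_id))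
    have i1 : Integrable (fun y => K y * ((w (x - y) : ℂ) * p (x - y))) := by
      apply hKint.mul_bdd (c := W0 * B)
      · exact (hwm.mul hpm).aestronglyMeasurable
      · filter_upwards with y
        rw [norm_mul, Complex.norm_real]
        exact mul_le_mul (hW0 _) (hB _) (norm_nonneg _) ((norm_nonneg _).trans (hW0 0))
    have i2 : Integrable (fun y => K y * p (x - y)) := by
      apply hKint.mul_bdd (c := B)
      · exact hpm.aestronglyMeasurable
      · filter_upwards with y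
        exact hB _
    have e : F x = ∫ y, K y * (((w (x - y) - w x : ℝ) : ℂ) * p (x - y)) := by
      rw [hF]
      simp only
      rw [← integral_const_mul, ← integral_sub i1 (i2.const_mul _)]
      congr 1
      ext y
      push_cast
      ring
    rw [e]
    refine (enorm_integral_le_lintegral_enorm _).trans ?_
    rw [hμ, lintegral_prod _ (hq x).aemeasurable,
      lintegral_withDensity_eq_lintegral_mul _ hκm (hq x).lintegral_prod_right',
      ← lintegral_const_mul' _ _ ENNReal.ofReal_ne_top]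
    apply lintegral_mono
    intro y
    have h1 := far_ftc w hw x y
    have h2 : ‖p (x - y)‖ₑ ≤ ENNReal.ofReal B := by
      rw [← ofReal_norm]
      exact ENNReal.ofReal_le_ofReal (hB _)
    simp only [Pi.mul_apply]
    rw [enorm_mul, enorm_mul]
    have h3 : ‖((w (x - y) - w x : ℝ) : ℂ)‖ₑ = ‖w (x - y) - w x‖ₑ := by
      rw [← ofReal_norm, Complex.norm_real, ofReal_norm]
    rw [h3]
    calc ‖K y‖ₑ * (‖w (x - y) - w x‖ₑ * ‖p (x - y)‖ₑ)
        ≤ ‖K y‖ₑ * ((‖y‖ₑ * ∫⁻ τ in Ioc (0 : ℝ) 1, ‖fderiv ℝ w (x - τ • y)‖ₑ) * ENNReal.ofReal B) := by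
          gcongr
      _ = _ := by
          rw [hκ, hW, hν]
          ring
  have hconst : ENNReal.ofReal B * ENNReal.ofReal ((C + 1) / s) = ENNReal.ofReal ((C + 1) * B / s) := by
    rw [← ENNReal.ofReal_mul hB0]
    congr 1
    ring
  have hCBs : 0 ≤ (C + 1) * B / s := by positivity
  constructor
  · apply far_integral_le
    · exact mul_nonneg hCBs (integral_nonneg fun x => norm_nonneg _)
    swap
    · intro x; exact norm_nonneg _
    have hswap : ∫⁻ x, ∫⁻ q, W (x - q.2 • q.1) ∂μ = μ univ * ∫⁻ x, W x := by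
      rw [lintegral_lintegral_swap hjoint.aemeasurable]
      have : ∀ q : ℂ × ℝ, ∫⁻ x, W (x - q.2 • q.1) = ∫⁻ x, W x := fun q =>
        lintegral_sub_right_eq_self W _
      simp only [this, lintegral_const]
      rw [mul_comm]
    calc ∫⁻ x, ENNReal.ofReal ‖F x‖ ≤ ∫⁻ x, ENNReal.ofReal B * ∫⁻ q, W (x - q.2 • q.1) ∂μ := by
          apply lintegral_mono
          intro x
          simp only
          rw [ofReal_norm]
          exact hpt x
      _ = ENNReal.ofReal B * (μ univ * ∫⁻ x, W x) := by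
          rw [lintegral_const_mul' _ _ ENNReal.ofReal_ne_top, hswap]
      _ ≤ ENNReal.ofReal B * (ENNReal.ofReal ((C + 1) / s) * ∫⁻ x, W x) := by gcongr
      _ = ENNReal.ofReal ((C + 1) * B / s * ∫ x, ‖fderiv ℝ w x‖) := by
          rw [← mul_assoc, hconst, ENNReal.ofReal_mul hCBs,
            ofReal_integral_eq_lintegral_ofReal (hDc.norm.integrable_of_hasCompactSupport hDs.norm)
              (Eventually.of_forall fun x => norm_nonneg _)]
          simp only [ofReal_norm, hW]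
  · apply far_integral_le
    · exact mul_nonneg (sq_nonneg _) (integral_nonneg fun x => sq_nonneg _)
    swap
    · intro x; exact sq_nonneg _
    have hswap : ∫⁻ x, ∫⁻ q, W (x - q.2 • q.1) ^ 2 ∂μ = μ univ * ∫⁻ x, W x ^ 2 := by
      rw [lintegral_lintegral_swap (hjoint.pow_const 2).aemeasurable]
      have : ∀ q : ℂ × ℝ, ∫⁻ x, W (x - q.2 • q.1) ^ 2 = ∫⁻ x, W x ^ 2 := fun q =>
        lintegral_sub_right_eq_self (fun x => W x ^ 2) _
      simp only [this, lintegral_const]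
      rw [mul_comm]
    have hpt2 : ∀ x, ENNReal.ofReal (‖F x‖ ^ 2) ≤ ENNReal.ofReal B ^ 2 *
        (μ univ * ∫⁻ q, W (x - q.2 • q.1) ^ 2 ∂μ) := by
      intro x
      rw [ENNReal.ofReal_pow (norm_nonneg _), ofReal_norm]
      refine (pow_le_pow_left' (hpt x) 2).trans ?_
      rw [mul_pow]
      gcongr
      exact far_cs μ _ (hq x).aemeasurable
    calc ∫⁻ x, ENNReal.ofReal (‖F x‖ ^ 2)
        ≤ ∫⁻ x, ENNReal.ofReal B ^ 2 * (μ univ * ∫⁻ q, W (x - q.2 • q.1) ^ 2 ∂μ) := lintegral_mono hpt2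
      _ = ENNReal.ofReal B ^ 2 * (μ univ * (μ univ * ∫⁻ x, W x ^ 2)) := by
          rw [lintegral_const_mul' _ _ (ENNReal.pow_ne_top ENNReal.ofReal_ne_top),
            lintegral_const_mul' _ _ (ne_top_of_le_ne_top ENNReal.ofReal_ne_top hμ1), hswap]
      _ ≤ ENNReal.ofReal B ^ 2 * (ENNReal.ofReal ((C + 1) / s) * (ENNReal.ofReal ((C + 1) / s) * ∫⁻ x, W x ^ 2)) := by
          gcongr
      _ = (ENNReal.ofReal B * ENNReal.ofReal ((C + 1) / s)) ^ 2 * ∫⁻ x, W x ^ 2 := by ring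
      _ = ENNReal.ofReal (((C + 1) * B / s) ^ 2 * ∫ x, ‖fderiv ℝ w x‖ ^ 2) := by
          rw [hconst, ENNReal.ofReal_mul (sq_nonneg _), ← ENNReal.ofReal_pow hCBs,
            ofReal_integral_eq_lintegral_ofReal _ (Eventually.of_forall fun x => sq_nonneg _)]
          · congr 1
            apply lintegral_congr
            intro x
            rw [ENNReal.ofReal_pow (norm_nonneg _), ofReal_norm]
          · exact hD2

/-- corollary of `comm` and `mult_conv`: a frequency projection kills `w p` up to the gradient of `w` if `p` has no frequencies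
in the support of the projection (`s = R / K`) -/
theorem far (t : ℂ → ℂ) (ht : Nice t) : ∃ C : ℝ, 0 < C ∧ ∀ s : ℝ, 0 < s → ∀ (n : ℂ) (b : ℂ → ℂ),
    Nice b → (∀ ξ, t (ξ / s - n) * b ξ = 0) → ∀ B : ℝ, (∀ x, ‖𝓕⁻ b x‖ ≤ B) →
    ∀ w : ℂ → ℝ, ContDiff ℝ 1 w → HasCompactSupport w →
      (∫ x, ‖∫ y, 𝓕⁻ (fun ξ => t (ξ / s - n)) y * ((w (x - y) : ℂ) * 𝓕⁻ b (x - y))‖) ≤
        C * B / s * ∫ x, ‖fderiv ℝ w x‖ ∧
      (∫ x, ‖∫ y, 𝓕⁻ (fun ξ => t (ξ / s - n)) y * ((w (x - y) : ℂ) * 𝓕⁻ b (x - y))‖ ^ 2) ≤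
        (C * B / s) ^ 2 * ∫ x, ‖fderiv ℝ w x‖ ^ 2 := by
  obtain ⟨C, hC, h⟩ := comm t ht
  refine ⟨C, hC, ?_⟩
  intro s hs n b hb hz B hB w hw hwc
  have h1 := h s hs n (𝓕⁻ b) (nice_continuous b hb).measurable B hB w hw hwc
  have h2 : ∀ x, ∫ y, 𝓕⁻ (fun ξ => t (ξ / s - n)) y * 𝓕⁻ b (x - y) = 0 := by
    intro x
    rw [← mult_conv _ b (far_nice t ht hs n) hb x, tb_fourierInv]
    simp only [hz, mul_zero, integral_zero]
  simp only [h2, mul_zero, sub_zero] at h1
  exact h1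

end Pool.Agent.H24.Tri
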