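import Pool.Agent.H38.Tri.Far

/-! Project TRI, module SL-A: band-limited functions are Lipschitz, the weights `hwt`, `lwt`, the
decomposition `gh + gl`, translations (section 7 of the paper proof). -/

set_option autoImplicit false

open MeasureTheory Set Complex Metric Filter Topology
open scoped Real ENNReal NNReal FourierTransform ComplexConjugate

namespace Pool.Agent.H24.Tri

/-- Lipschitz bound for band-limited functions -/
theorem adm_lip (C₀ : ℝ) (hC₀ : 0 < C₀) : ∃ C : ℝ, 1 ≤ C ∧ ∀ R : ℝ, 0 < R → ∀ a : ℂ → ℂ,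
    Adm C₀ R a → ∀ x y, ‖𝓕⁻ a x - 𝓕⁻ a y‖ ≤ C * R * ‖x - y‖ := by
  obtain ⟨C, hC0, _, _, _, hC⟩ := kernel_bounds chiC nice_chi
  refine ⟨C * C₀ + 1, by nlinarith, ?_⟩
  intro R hR a ha x y
  set c : ℝ := C₀ * R with hc
  have hc0 : 0 < c := mul_pos hC₀ hR
  have hc' : (c : ℂ) ≠ 0 := by exact_mod_cast hc0.ne'
  set K : ℂ → ℂ := 𝓕⁻ (fun ξ : ℂ => chiC (ξ / c - 0)) with hK
  have hnK := far_nice chiC nice_chi hc0 0
  have hKint : Integrable K := (nice_integrable _ hnK).2
  have hKc : Continuous K := nice_continuous _ hnK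
  have hac := nice_continuous a ha.nice
  have e1 : (fun ξ => chiC (ξ / c - 0) * a ξ) = a := by
    ext ξ
    by_cases h : a ξ = 0
    · rw [h, mul_zero]
    · have h1 : ‖ξ‖ ≤ c := by
        by_contra h2
        push Not at h2
        exact h (ha.supp ξ h2)
      have h2 : chi (ξ / c - 0) = 1 := by
        apply chi_one
        rw [sub_zero, norm_div, Complex.norm_real, Real.norm_eq_abs, abs_of_pos hc0, div_le_one hc0]
        exact h1
      rw [chiC, h2]
      simp
  have e2 : ∀ z, 𝓕⁻ a z = ∫ v, K (z - v) * 𝓕⁻ a v := by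
    intro z
    have h1 := mult_conv _ a hnK ha.nice z
    rw [e1] at h1
    rw [h1, ← integral_sub_left_eq_self (fun v => K (z - v) * 𝓕⁻ a v) volume z]
    congr 1
    ext u
    rw [sub_sub_cancel]
  have i1 : ∀ z, Integrable (fun v => K (z - v) * 𝓕⁻ a v) := by
    intro z
    apply (hKint.comp_sub_left z).mul_bdd (c := 1)
    · exact hac.aestronglyMeasurable
    · exact Eventually.of_forall ha.bound
  have e3 : 𝓕⁻ a x - 𝓕⁻ a y = ∫ v, (K (x - v) - K (y - v)) * 𝓕⁻ a v := by
    rw [e2 x, e2 y, ← integral_sub (i1 x) (i1 y)]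
    congr 1
    ext v
    ring
  have i2 : Integrable (fun v => ‖K (x - v) - K (y - v)‖) :=
    ((hKint.comp_sub_left x).sub (hKint.comp_sub_left y)).norm
  have e4 : ∀ u, K u = ((c ^ 2 : ℝ) : ℂ) * 𝓕⁻ chiC ((c : ℂ) * u) := by
    intro u
    rw [hK, kernel_scaled chiC nice_chi c hc' 0 u]
    simp [Complex.conj_ofReal]
  calc ‖𝓕⁻ a x - 𝓕⁻ a y‖ ≤ ∫ v, ‖(K (x - v) - K (y - v)) * 𝓕⁻ a v‖ := by
        rw [e3]; exact norm_integral_le_integral_norm _
    _ ≤ ∫ v, ‖K (x - v) - K (y - v)‖ := by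
        apply integral_mono_of_nonneg (Eventually.of_forall fun v => norm_nonneg _) i2
        apply Eventually.of_forall
        intro v
        simp only
        rw [norm_mul]
        exact mul_le_of_le_one_right (norm_nonneg _) (ha.bound v)
    _ = ∫ u, ‖K (u + (x - y)) - K u‖ := by
        rw [← integral_sub_left_eq_self (fun u => ‖K (u + (x - y)) - K u‖) volume y]
        congr 1
        ext v
        congr 3
        ring
    _ = c ^ 2 * ∫ u, ‖𝓕⁻ chiC (c • u + c • (x - y)) - 𝓕⁻ chiC (c • u)‖ := by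
        rw [← integral_const_mul]
        congr 1
        ext u
        rw [e4, e4, ← mul_sub, norm_mul, Complex.norm_real, Real.norm_eq_abs, abs_of_nonneg (by positivity)]
        simp only [Complex.real_smul, mul_add]
    _ = ∫ u, ‖𝓕⁻ chiC (u + c • (x - y)) - 𝓕⁻ chiC u‖ := by
        rw [Measure.integral_comp_smul (volume : Measure ℂ)
          (fun u : ℂ => ‖𝓕⁻ chiC (u + c • (x - y)) - 𝓕⁻ chiC u‖) c, Complex.finrank_real_complex,
          smul_eq_mul, abs_of_pos (by positivity), ← mul_assoc, mul_inv_cancel₀ (by positivity), one_mul]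
    _ ≤ C * ‖c • (x - y)‖ := hC _
    _ = C * C₀ * R * ‖x - y‖ := by
        rw [norm_smul, Real.norm_eq_abs, abs_of_pos hc0, hc]; ring
    _ ≤ (C * C₀ + 1) * R * ‖x - y‖ := by
        apply mul_le_mul_of_nonneg_right _ (norm_nonneg _)
        nlinarith

/-! ### the weights -/

theorem mass_continuous {r : ℝ} (hr : 0 < r) (b : ℂ → ℂ) (hb : Nice b) :
    Continuous (fun t => mass r (𝓕⁻ b) t) := by
  obtain ⟨C, hC0, hC⟩ := psr_le
  have hbc := nice_continuous b hb
  have hb2 : Integrable (fun x => ‖𝓕⁻ b x‖ ^ 2) := by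
    have := (nice_memLp b hb).2
    exact this.integrable_norm_pow (by norm_num)
  have hpc : Continuous (psr r) := (psr_smooth r).continuous
  unfold mass
  apply continuous_of_dominated (bound := fun x => (C / r) ^ 2 * ‖𝓕⁻ b x‖ ^ 2)
  · intro t
    apply Continuous.aestronglyMeasurable
    exact ((hpc.comp (continuous_id.sub continuous_const)).pow 2).mul (hbc.norm.pow 2)
  · intro t
    apply Eventually.of_forall
    intro x
    rw [Real.norm_eq_abs, abs_of_nonneg (by positivity)]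
    apply mul_le_mul_of_nonneg_right _ (by positivity)
    exact pow_le_pow_left₀ (psr_nonneg hr _) (hC r hr _) 2
  · exact hb2.const_mul _
  · apply Eventually.of_forall
    intro x
    exact ((hpc.comp (continuous_const.sub continuous_id)).pow 2).mul continuous_const

theorem wt_sq_compact {r : ℝ} (hr : 0 < r) : HasCompactSupport (fun x => psr r x ^ 2) := by
  apply HasCompactSupport.intro (K := tsupport (psr r)) (psr_compact hr)
  intro x hx
  rw [image_eq_zero_of_notMem_tsupport hx]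
  norm_num

theorem wt_smooth {r : ℝ} (hr : 0 < r) (f : ℂ → ℝ) (hf : Measurable f) (hf1 : ∀ x, ‖f x‖ ≤ 1) :
    ContDiff ℝ ((⊤ : ℕ∞) : WithTop ℕ∞) (fun x => ∫ t, psr r (x - t) ^ 2 * f t) := by
  have hli : LocallyIntegrable f volume := by
    apply (locallyIntegrable_const (1 : ℝ)).mono hf.aestronglyMeasurable
    apply Eventually.of_forall
    intro x
    simpa using hf1 x
  have h := (wt_sq_compact hr).contDiff_convolution_right (n := (⊤ : ℕ∞)) (ContinuousLinearMap.mul ℝ ℝ) hli
    ((psr_smooth r).pow 2)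
  have e : (fun x => ∫ t, psr r (x - t) ^ 2 * f t) = 
      MeasureTheory.convolution f (fun x => psr r x ^ 2) (ContinuousLinearMap.mul ℝ ℝ) volume := by
    ext x
    rw [MeasureTheory.convolution_def]
    congr 1
    ext t
    rw [ContinuousLinearMap.mul_apply', mul_comm]
  rw [e]
  exact h

theorem wt_integrable {r : ℝ} (hr : 0 < r) (f : ℂ → ℝ) (hf : Measurable f) (hf1 : ∀ x, ‖f x‖ ≤ 1) (x : ℂ) :
    Integrable (fun t => psr r (x - t) ^ 2 * f t) := by
  have h1 : Integrable (fun t => psr r t ^ 2) :=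
    ((psr_smooth r).continuous.pow 2).integrable_of_hasCompactSupport (wt_sq_compact hr)
  apply (h1.comp_sub_left x).mul_bdd (c := 1)
  · exact hf.aestronglyMeasurable
  · exact Eventually.of_forall hf1

/-- the weights add up to one and lie in `[0,1]`; they are smooth -/
theorem wt_facts (K R r th : ℝ) (hR : 0 < R) (hK : 1 ≤ K) (hr : 0 < r) (a : ℂ → ℂ) (ha : Nice a)
    (m : ℤ × ℤ) : (∀ x, 0 ≤ hwt K R r th a m x) ∧ (∀ x, 0 ≤ lwt K R r th a m x) ∧
      (∀ x, hwt K R r th a m x + lwt K R r th a m x = 1) ∧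
      ContDiff ℝ ((⊤ : ℕ∞) : WithTop ℕ∞) (hwt K R r th a m) ∧
      ContDiff ℝ ((⊤ : ℕ∞) : WithTop ℕ∞) (lwt K R r th a m) ∧
      (Continuous fun t => mass r (pm K R a m) t) := by
  classical
  have hmc : Continuous fun t => mass r (pm K R a m) t :=
    mass_continuous hr _ (nice_piece 1 (R / K) m a ha)
  have hE : MeasurableSet {t | th ≤ mass r (pm K R a m) t} :=
    (isClosed_le continuous_const hmc).measurableSet
  have hf : Measurable (fun t => if th ≤ mass r (pm K R a m) t then (1 : ℝ) else 0) :=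
    Measurable.ite hE measurable_const measurable_const
  have hf1 : ∀ t, ‖(if th ≤ mass r (pm K R a m) t then (1 : ℝ) else 0)‖ ≤ 1 := by
    intro t; split_ifs <;> simp
  have hg : Measurable (fun t => if th ≤ mass r (pm K R a m) t then (0 : ℝ) else 1) :=
    Measurable.ite hE measurable_const measurable_const
  have hg1 : ∀ t, ‖(if th ≤ mass r (pm K R a m) t then (0 : ℝ) else 1)‖ ≤ 1 := by
    intro t; split_ifs <;> simp
  have eh : hwt K R r th a m = fun x => ∫ t, psr r (x - t) ^ 2 * (if th ≤ mass r (pm K R a m) t then (1 : ℝ) else 0) := by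
    ext x; unfold hwt; congr 1
  have el : lwt K R r th a m = fun x => ∫ t, psr r (x - t) ^ 2 * (if th ≤ mass r (pm K R a m) t then (0 : ℝ) else 1) := by
    ext x; unfold lwt; congr 1
  refine ⟨?_, ?_, ?_, ?_, ?_, hmc⟩
  · intro x
    rw [eh]
    apply integral_nonneg
    intro t
    simp only [Pi.zero_apply]
    split_ifs <;> positivity
  · intro x
    rw [el]
    apply integral_nonneg
    intro t
    simp only [Pi.zero_apply]
    split_ifs <;> positivity
  · intro x
    rw [eh, el]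
    simp only
    rw [← integral_add (wt_integrable hr _ hf hf1 x) (wt_integrable hr _ hg hg1 x)]
    have e : ∀ t, psr r (x - t) ^ 2 * (if th ≤ mass r (pm K R a m) t then (1 : ℝ) else 0)
        + psr r (x - t) ^ 2 * (if th ≤ mass r (pm K R a m) t then (0 : ℝ) else 1) = psr r (x - t) ^ 2 := by
      intro t; split_ifs <;> ring
    simp only [e]
    rw [integral_sub_left_eq_self (fun t => psr r t ^ 2) volume x]
    exact psr_sq_integral hr
  · rw [eh]; exact wt_smooth hr _ hf hf1
  · rw [el]; exact wt_smooth hr _ hg hg1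

/-! ### decomposition -/

theorem pm_sum (C₀ K R : ℝ) (hC₀ : 0 < C₀) (hK : 1 ≤ K) (hR : 0 < R)
    (a : ℂ → ℂ) (ha : Adm C₀ R a) (x : ℂ) :
    ∑ m ∈ mbox (bx C₀ K), pm K R a m x = 𝓕⁻ a x := by
  have hK0 : 0 < K := by linarith
  have hRK : 0 < R / K := by positivity
  have h1 : ∀ m : ℤ × ℤ, pm K R a m x = ∫ ξ, Complex.exp (((2 * π * (conj ξ * x).re : ℝ) : ℂ) * Complex.I) *
      piece 1 (R / K) m a ξ := fun m => tb_fourierInv _ x
  have hint : ∀ m : ℤ × ℤ, Integrable (fun ξ => Complex.exp (((2 * π * (conj ξ * x).re : ℝ) : ℂ) * Complex.I) *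
      piece 1 (R / K) m a ξ) := by
    intro m
    apply (nice_integrable _ (nice_piece 1 (R / K) m a ha.nice)).1.bdd_mul (c := 1)
    · apply Continuous.aestronglyMeasurable
      fun_prop
    · apply Eventually.of_forall
      intro ξ
      rw [Complex.norm_exp_ofReal_mul_I]
  simp only [h1]
  rw [← integral_finsetSum _ (fun m _ => hint m), tb_fourierInv]
  congr 1
  ext ξ
  rw [← Finset.mul_sum]
  congr 1
  by_cases h : a ξ = 0
  · rw [h]
    apply Finset.sum_eq_zero
    intro m _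
    rw [piece, h, mul_zero]
  · have h2 : ‖ξ‖ ≤ C₀ * R := by
      by_contra h3
      push Not at h3
      exact h (ha.supp ξ h3)
    unfold piece sym
    rw [← Finset.sum_mul]
    have h3 : ∑ m ∈ mbox (bx C₀ K), theta (ξ / (1 * ((R / K : ℝ) : ℂ)) - gi m) = 1 := by
      apply theta_sum
      intro n hn
      set X : ℂ := ξ / (1 * ((R / K : ℝ) : ℂ)) with hX
      have hXn : ‖X‖ ≤ C₀ * K := by
        rw [hX, one_mul, norm_div, Complex.norm_real, Real.norm_eq_abs, abs_of_pos hRK, div_le_iff₀ hRK]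
        refine h2.trans (le_of_eq ?_)
        field_simp
      have hth : th (X - gi n).re ≠ 0 ∧ th (X - gi n).im ≠ 0 := by
        unfold theta at hn
        exact ⟨left_ne_zero_of_mul hn, right_ne_zero_of_mul hn⟩
      have hre : |(X - gi n).re| < 1 := by
        by_contra h4
        push Not at h4
        exact hth.1 (th_zero _ h4)
      have him : |(X - gi n).im| < 1 := by
        by_contra h4
        push Not at h4
        exact hth.2 (th_zero _ h4)
      rw [Complex.sub_re, gi_re] at hre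
      rw [Complex.sub_im, gi_im] at him
      have hr1 := (Complex.abs_re_le_norm X).trans hXn
      have hr2 := (Complex.abs_im_le_norm X).trans hXn
      have hM : C₀ * K ≤ ⌈C₀ * K⌉₊ := Nat.le_ceil _
      rw [abs_lt] at hre him
      rw [abs_le] at hr1 hr2
      unfold mbox bx
      rw [Finset.mem_Icc, Prod.le_def, Prod.le_def]
      simp only
      push_cast
      have k1 : (-(⌈C₀ * K⌉₊ + 1) : ℝ) ≤ n.1 := by linarith
      have k2 : ((n.1 : ℤ) : ℝ) ≤ ⌈C₀ * K⌉₊ + 1 := by linarith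
      have k3 : (-(⌈C₀ * K⌉₊ + 1) : ℝ) ≤ n.2 := by linarith
      have k4 : ((n.2 : ℤ) : ℝ) ≤ ⌈C₀ * K⌉₊ + 1 := by linarith
      refine ⟨⟨?_, ?_⟩, ⟨?_, ?_⟩⟩
      · exact_mod_cast k1
      · exact_mod_cast k3
      · exact_mod_cast k2
      · exact_mod_cast k4
    have h4 : ∑ m ∈ mbox (bx C₀ K), ((theta (ξ / (1 * ((R / K : ℝ) : ℂ)) - gi m) : ℝ) : ℂ) = 1 := by
      rw [← Complex.ofReal_sum, h3]; simp
    rw [h4, one_mul]

/-- SL-0: decomposition -/
theorem gh_add_gl (C₀ K R r th : ℝ) (hC₀ : 0 < C₀) (hK : 1 ≤ K) (hR : 0 < R) (hr : 0 < r)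
    (a : ℂ → ℂ) (ha : Adm C₀ R a) (x : ℂ) :
    gh C₀ K R r th a x + gl C₀ K R r th a x = 𝓕⁻ a x := by
  unfold gh gl
  rw [← Finset.sum_add_distrib, ← pm_sum C₀ K R hC₀ hK hR a ha x]
  apply Finset.sum_congr rfl
  intro m _
  have h := (wt_facts K R r th hR hK hr a ha.nice m).2.2.1 x
  rw [← add_mul, ← Complex.ofReal_add, h, Complex.ofReal_one, one_mul]

/-! ### translations -/

theorem fourierInv_translate (a : ℂ → ℂ) (w z : ℂ) :
    𝓕⁻ (fun ξ => Complex.exp (((2 * π * (conj ξ * w).re : ℝ) : ℂ) * Complex.I) * a ξ) z = 𝓕⁻ a (z + w) := by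
  rw [tb_fourierInv, tb_fourierInv]
  congr 1
  ext ξ
  have e : (conj ξ * (z + w)).re = (conj ξ * z).re + (conj ξ * w).re := by
    rw [mul_add, Complex.add_re]
  rw [e, ← mul_assoc, ← Complex.exp_add]
  congr 2
  push_cast
  ring

theorem pm_translate (K R : ℝ) (a : ℂ → ℂ) (w : ℂ) (m : ℤ × ℤ) (z : ℂ) :
    pm K R (fun ξ => Complex.exp (((2 * π * (conj ξ * w).re : ℝ) : ℂ) * Complex.I) * a ξ) m z
      = pm K R a m (z + w) := by
  have e : piece 1 (R / K) m (fun ξ => Complex.exp (((2 * π * (conj ξ * w).re : ℝ) : ℂ) * Complex.I) * a ξ)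
      = fun ξ => Complex.exp (((2 * π * (conj ξ * w).re : ℝ) : ℂ) * Complex.I) * piece 1 (R / K) m a ξ := by
    ext ξ
    unfold piece
    ring
  unfold pm
  rw [e, fourierInv_translate]

theorem mass_translate (r : ℝ) (p q : ℂ → ℂ) (w : ℂ) (h : ∀ z, q z = p (z + w)) (t : ℂ) :
    mass r q t = mass r p (t + w) := by
  unfold mass
  rw [← integral_add_right_eq_self (fun x => psr r (x - (t + w)) ^ 2 * ‖p x‖ ^ 2) w]
  congr 1
  ext x
  rw [h x]
  congr 3
  ring

theorem lwt_translate (K R r th : ℝ) (a : ℂ → ℂ) (w : ℂ) (m : ℤ × ℤ) (x : ℂ) :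
    lwt K R r th (fun ξ => Complex.exp (((2 * π * (conj ξ * w).re : ℝ) : ℂ) * Complex.I) * a ξ) m x
      = lwt K R r th a m (x + w) := by
  unfold lwt
  rw [← integral_add_right_eq_self (fun t => psr r (x + w - t) ^ 2 *
    (if th ≤ mass r (pm K R a m) t then (0 : ℝ) else 1)) w]
  congr 1
  ext t
  rw [mass_translate r (pm K R a m) _ w (pm_translate K R a w m) t]
  congr 3
  ring

theorem hwt_translate (K R r th : ℝ) (a : ℂ → ℂ) (w : ℂ) (m : ℤ × ℤ) (x : ℂ) :
    hwt K R r th (fun ξ => Complex.exp (((2 * π * (conj ξ * w).re : ℝ) : ℂ) * Complex.I) * a ξ) m x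
      = hwt K R r th a m (x + w) := by
  unfold hwt
  rw [← integral_add_right_eq_self (fun t => psr r (x + w - t) ^ 2 *
    (if th ≤ mass r (pm K R a m) t then (1 : ℝ) else 0)) w]
  congr 1
  ext t
  rw [mass_translate r (pm K R a m) _ w (pm_translate K R a w m) t]
  congr 3
  ring

/-- translation of the symbol; also `Adm C₀ R` is invariant under it -/
theorem gl_translate (C₀ K R r th : ℝ) (a : ℂ → ℂ) (_ha : Nice a) (w x : ℂ) :
    gl C₀ K R r th (fun ξ => Complex.exp (((2 * π * (conj ξ * w).re : ℝ) : ℂ) * Complex.I) * a ξ) x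
      = gl C₀ K R r th a (x + w) := by
  unfold gl
  apply Finset.sum_congr rfl
  intro m _
  rw [lwt_translate, pm_translate]

theorem gh_translate (C₀ K R r th : ℝ) (a : ℂ → ℂ) (w x : ℂ) :
    gh C₀ K R r th (fun ξ => Complex.exp (((2 * π * (conj ξ * w).re : ℝ) : ℂ) * Complex.I) * a ξ) x
      = gh C₀ K R r th a (x + w) := by
  unfold gh
  apply Finset.sum_congr rfl
  intro m _
  rw [hwt_translate, pm_translate]

theorem adm_translate (C₀ R : ℝ) (a : ℂ → ℂ) (ha : Adm C₀ R a) (w : ℂ) :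
    Adm C₀ R (fun ξ => Complex.exp (((2 * π * (conj ξ * w).re : ℝ) : ℂ) * Complex.I) * a ξ) := by
  refine ⟨?_, ?_, ?_⟩
  · have := tb_nice_mod a ha.nice w
    have e : (fun ξ => Complex.exp (((2 * π * (conj ξ * w).re : ℝ) : ℂ) * Complex.I) * a ξ)
        = fun ξ => a ξ * Complex.exp (((2 * π * (conj ξ * w).re : ℝ) : ℂ) * Complex.I) := by
      ext ξ; ring
    rw [e]
    exact this
  · intro ξ hξ
    rw [ha.supp ξ hξ, mul_zero]
  · intro z
    rw [fourierInv_translate]
    exact ha.bound _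

end Pool.Agent.H24.Tri
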